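import Pool.Agent.Helper28.CQ.Stmts
import Pool.Agent.Helper93.ETC.Sperner

set_option autoImplicit false

/-!
# HEX: monochromatic crossing of a box
-/

namespace CQ

open Relation

theorem dI_comm {m : ℕ} (x y : V m) : dI x y = dI y x := by
  unfold dI
  congr 1
  funext i
  rw [← Int.natAbs_neg]
  congr 1
  ring

theorem dI_self {m : ℕ} (x : V m) : dI x x = 0 := by
  have : dI x x ≤ 0 := by
    rw [dI_le]; intro i; simp
  omega

theorem dI_tri {m : ℕ} (x y z : V m) : dI x z ≤ dI x y + dI y z := by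
  rw [dI_le]
  intro i
  have h1 := dI_le.1 (le_refl (dI x y)) i
  have h2 := dI_le.1 (le_refl (dI y z)) i
  omega

/-- the step relation of HEX -/
def hstep {m : ℕ} (N : Fin m → ℕ) (col : V m → Fin m) (j : Fin m) (a b : V m) : Prop :=
  (∀ i, 0 ≤ a i ∧ a i ≤ (N i : ℤ)) ∧ (∀ i, 0 ≤ b i ∧ b i ≤ (N i : ℤ)) ∧ dI a b ≤ 1 ∧
    col a = j ∧ col b = j

/-- `x` is joined to the face `x_j = 0` by a path of colour `j` -/
def Conn {m : ℕ} (N : ℕ) (col : V m → Fin m) (j : Fin m) (x : V m) : Prop :=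
  ∃ x₀ : V m, (∀ i, 0 ≤ x₀ i ∧ x₀ i ≤ (N : ℤ)) ∧ x₀ j = 0 ∧ col x₀ = j ∧
    ReflTransGen (hstep (fun _ => N) col j) x₀ x

/-- the inner point of a vertex of the big cube -/
def inn {m : ℕ} (N : ℕ) (y : Fin m → ℕ) : V m := fun i => (N : ℤ) - y i

open Classical in
/-- the label -/
noncomputable def lab {m : ℕ} (N : ℕ) (col : V m → Fin m) (y : Fin m → ℕ) : ℕ :=
  if ∃ j, y j = N + 1 then
    (Finset.univ.filter fun j => y j = N + 1).sup fun j : Fin m => (j : ℕ) + 1
  else if Conn N col (col (inn N y)) (inn N y) then (col (inn N y) : ℕ) + 1 else 0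

theorem lab_le {m : ℕ} (N : ℕ) (col : V m → Fin m) (y : Fin m → ℕ) : lab N col y ≤ m := by
  classical
  unfold lab
  split_ifs with h1 h2
  · apply Finset.sup_le
    intro j _
    have := j.2
    omega
  · have := (col (inn N y)).2
    omega
  · omega

theorem lab_out_ge {m : ℕ} (N : ℕ) (col : V m → Fin m) (y : Fin m → ℕ) (i : Fin m)
    (hi : y i = N + 1) : (i : ℕ) + 1 ≤ lab N col y := by
  classical
  unfold lab
  rw [if_pos ⟨i, hi⟩]
  exact Finset.le_sup (f := fun j : Fin m => (j : ℕ) + 1)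
    (Finset.mem_filter.2 ⟨Finset.mem_univ _, hi⟩)

theorem lab_out_eq {m : ℕ} (N : ℕ) (col : V m → Fin m) (y : Fin m → ℕ) (i : Fin m)
    (h : ∃ j, y j = N + 1) (hl : lab N col y = (i : ℕ) + 1) : y i = N + 1 := by
  classical
  unfold lab at hl
  rw [if_pos h] at hl
  obtain ⟨j0, hj0⟩ := h
  have hne : (Finset.univ.filter fun j : Fin m => y j = N + 1).Nonempty :=
    ⟨j0, Finset.mem_filter.2 ⟨Finset.mem_univ _, hj0⟩⟩
  obtain ⟨j, hj, hje⟩ := Finset.exists_mem_eq_sup _ hne (fun j : Fin m => (j : ℕ) + 1)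
  rw [hje] at hl
  have : j = i := Fin.ext (by omega)
  subst this
  exact (Finset.mem_filter.1 hj).2

theorem inn_box {m : ℕ} {N : ℕ} {y : Fin m → ℕ} (hy : ∀ i, y i ≤ N + 1) (h : ¬ ∃ j, y j = N + 1) :
    ∀ i, 0 ≤ inn N y i ∧ inn N y i ≤ (N : ℤ) := by
  intro i
  have h1 := hy i
  have h2 : y i ≠ N + 1 := fun h3 => h ⟨i, h3⟩
  unfold inn
  constructor <;> omega

theorem hex_cube (m N : ℕ) (col : V m → Fin m) :
    ∃ (j : Fin m) (x y : V m), (∀ i, 0 ≤ x i ∧ x i ≤ (N : ℤ)) ∧ x j = 0 ∧ y j = (N : ℤ) ∧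
      col x = j ∧ ReflTransGen (hstep (fun _ => N) col j) x y := by
  classical
  by_contra hcon
  have hno : ∀ (j : Fin m) (y : V m), Conn N col j y → y j ≠ (N : ℤ) := by
    rintro j y ⟨x, hx, hx0, hcx, hp⟩ hy
    exact hcon ⟨j, x, y, hx, hx0, hy, hcx, hp⟩
  have hodd := Pool.Agent.Helper93.ETC.sperner (N + 1) (by omega) m (lab N col)
    (fun x _ => lab_le N col x) ?_ (fun x _ i hi => lab_out_ge N col x i hi)
  swap
  · intro y hy i hi hl
    by_cases h : ∃ j, y j = N + 1
    · have := lab_out_eq N col y i h hl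
      omega
    · unfold lab at hl
      rw [if_neg h] at hl
      split_ifs at hl with h2
      have hc : col (inn N y) = i := Fin.ext (by omega)
      rw [hc] at h2
      apply hno i _ h2
      unfold inn
      omega
  have hne : (Pool.Agent.Helper93.ETC.comp m (N + 1) (lab N col)).Nonempty := by
    rw [Finset.nonempty_iff_ne_empty]
    intro h
    rw [h] at hodd
    simp at hodd
  obtain ⟨s, hs⟩ := hne
  rw [Pool.Agent.Helper93.ETC.comp, Finset.mem_filter] at hs
  obtain ⟨hs1, hs2⟩ := hs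
  obtain ⟨k, hk⟩ := hs2 0 (Nat.zero_le _)
  set y := Pool.Agent.Helper93.ETC.vert s.1 s.2 k with hydef
  have hyb : ∀ i, y i ≤ N + 1 := fun i => Pool.Agent.Helper93.ETC.vert_le hs1 _ i
  have hout : ¬ ∃ j, y j = N + 1 := by
    rintro ⟨j, hj⟩
    have := lab_out_ge N col y j hj
    omega
  have hnc : ¬ Conn N col (col (inn N y)) (inn N y) := by
    intro h
    unfold lab at hk
    rw [if_neg hout, if_pos h] at hk
    omega
  obtain ⟨k', hk'⟩ := hs2 ((col (inn N y) : ℕ) + 1) (by have := (col (inn N y)).2; omega)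
  set w := Pool.Agent.Helper93.ETC.vert s.1 s.2 k' with hwdef
  have hwb : ∀ i, w i ≤ N + 1 := fun i => Pool.Agent.Helper93.ETC.vert_le hs1 _ i
  have hclose : ∀ i, w i ≤ y i + 1 ∧ y i ≤ w i + 1 := by
    intro i
    rw [hwdef, hydef]
    unfold Pool.Agent.Helper93.ETC.vert
    constructor <;> split_ifs <;> omega
  have hybox := inn_box hyb hout
  by_cases h : ∃ j, w j = N + 1
  · have h1 := lab_out_eq N col w (col (inn N y)) h hk'
    have h2 := (hclose (col (inn N y))).1
    have h3 : y (col (inn N y)) ≠ N + 1 := fun h4 => hout ⟨_, h4⟩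
    have h4 := hyb (col (inn N y))
    apply hnc
    refine ⟨inn N y, hybox, ?_, rfl, ReflTransGen.refl⟩
    unfold inn at *
    omega
  · have hwbox := inn_box hwb h
    unfold lab at hk'
    rw [if_neg h] at hk'
    split_ifs at hk' with h2
    have hc : col (inn N w) = col (inn N y) := Fin.ext (by omega)
    rw [hc] at h2
    obtain ⟨x₀, hx₀, hx0, hcx, hp⟩ := h2
    apply hnc
    refine ⟨x₀, hx₀, hx0, hcx, hp.tail ⟨hwbox, hybox, ?_, hc, rfl⟩⟩
    rw [dI_le]
    intro i
    have := hclose i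
    unfold inn
    omega

/-- HEX -/
theorem mod_HEX : S_HEX := by
  intro m N hm col
  classical
  set M : ℕ := Finset.univ.sup N with hM
  have hNM : ∀ i, N i ≤ M := fun i => Finset.le_sup (Finset.mem_univ i)
  let c : V m → V m := fun x i => min (x i) (N i)
  obtain ⟨j, x, y, hx, hx0, hy, hcx, hp⟩ := hex_cube m M (fun x => col (c x))
  refine ⟨j, c x, c y, ?_, ?_, ?_, hcx, ?_⟩
  · intro i
    have := hx i
    show 0 ≤ min (x i) (N i : ℤ) ∧ min (x i) (N i : ℤ) ≤ N i
    constructor <;> omega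
  · show min (x j) (N j : ℤ) = 0
    omega
  · show min (y j) (N j : ℤ) = N j
    have := hNM j
    omega
  · refine ReflTransGen.lift c ?_ _ _ hp
    rintro a b ⟨ha, hb, hab, hca, hcb⟩
    refine ⟨?_, ?_, ?_, hca, hcb⟩
    · intro i
      have := ha i
      show 0 ≤ min (a i) (N i : ℤ) ∧ min (a i) (N i : ℤ) ≤ N i
      constructor <;> omega
    · intro i
      have := hb i
      show 0 ≤ min (b i) (N i : ℤ) ∧ min (b i) (N i : ℤ) ≤ N i
      constructor <;> omega
    · rw [dI_le] at hab ⊢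
      intro i
      have := hab i
      show (min (a i) (N i : ℤ) - min (b i) (N i : ℤ)).natAbs ≤ 1
      omega

end CQ
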