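import Pool.Agent.Helper10.CQ.HEX

set_option autoImplicit false

/-!
# DD and NS: deep points, and non-separation in `Z^m`
-/

namespace CQ

open Relation

/-- `u` is at distance `> D` from `A` -/
def deep {m : ℕ} (A : Set (V m)) (D : ℕ) (u : V m) : Prop := ∀ w, dI u w ≤ D → w ∉ A

theorem deep_mono {m : ℕ} {A : Set (V m)} {D D' : ℕ} {u : V m} (h : deep A D u) (hD : D' ≤ D) :
    deep A D' u := fun w hw => h w (hw.trans hD)

theorem deep_shift {m : ℕ} {A : Set (V m)} {D r : ℕ} {u u' : V m} (h : deep A (D + r) u)
    (hu : dI u u' ≤ r) : deep A D u' := by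
  intro w hw
  apply h w
  have := dI_tri u u' w
  omega

/-- DD (from HEX) -/
theorem mod_DD (hex : S_HEX) : S_DD := by
  classical
  intro m k Δ r hk
  refine ⟨Δ (2 * r + 1) + 2 * r + 1, ?_⟩
  intro A hA x
  by_contra hcon
  push Not at hcon
  set L := Δ (2 * r + 1) + 2 * r + 1 with hL
  obtain ⟨col, hcol⟩ := hA (2 * r + 1)
  have hm : 0 < m := by
    have := (col x).2
    omega
  let a : V m → V m := fun z => if h : ∃ w, dI (x + z) w ≤ r ∧ w ∈ A then h.choose else x
  have ha : ∀ z : V m, (∀ i, 0 ≤ z i ∧ z i ≤ (L : ℤ)) → dI (x + z) (a z) ≤ r ∧ a z ∈ A := by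
    intro z hz
    have h : ∃ w, dI (x + z) w ≤ r ∧ w ∈ A := by
      apply hcon
      rw [dI_le]
      intro i
      have := hz i
      simp only [Pi.add_apply]
      omega
    show dI (x + z) (if h : ∃ w, dI (x + z) w ≤ r ∧ w ∈ A then h.choose else x) ≤ r ∧
      (if h : ∃ w, dI (x + z) w ≤ r ∧ w ∈ A then h.choose else x) ∈ A
    rw [dif_pos h]
    exact h.choose_spec
  obtain ⟨j, p, q, hp, hp0, hq0, hcp, hpath⟩ := hex m (fun _ => L) hm
    (fun z => Fin.castLE hk (col (a z)))
  -- the end point is in the box
  have hq : ∀ i, 0 ≤ q i ∧ q i ≤ (L : ℤ) := by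
    rcases ReflTransGen.cases_tail hpath with h | ⟨c, _, hc⟩
    · rw [h]; exact hp
    · exact hc.2.1
  have hlift : ReflTransGen (fun a b => a ∈ A ∧ b ∈ A ∧ dI a b ≤ 2 * r + 1 ∧ col a = col b)
      (a p) (a q) := by
    refine ReflTransGen.lift a ?_ _ _ hpath
    rintro b c ⟨hb, hc, hbc, hcb, hcc⟩
    obtain ⟨h1, h2⟩ := ha b hb
    obtain ⟨h3, h4⟩ := ha c hc
    refine ⟨h2, h4, ?_, ?_⟩
    · rw [dI_le] at *
      intro i
      have e1 := h1 i
      have e3 := h3 i
      have e5 := hbc i
      simp only [Pi.add_apply] at e1 e3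
      omega
    · have := hcb.trans hcc.symm
      exact Fin.castLE_injective hk this
  have h1 := hcol _ _ (ha p hp).2 hlift
  have h2 := (ha p hp).1
  have h3 := (ha q hq).1
  rw [dI_le] at h1 h2 h3
  have e1 := h1 j
  have e2 := h2 j
  have e3 := h3 j
  simp only [Pi.add_apply] at e2 e3
  omega

/-- `s` changes only at `A` -/
def bdry {m : ℕ} (A : Set (V m)) (s : V m → Prop) : Prop :=
  ∀ x y, dI x y ≤ 1 → s x → ¬ s y → x ∈ A ∨ y ∈ A

theorem bdry_adj {m : ℕ} {A : Set (V m)} {s : V m → Prop} (h : bdry A s) {x y : V m}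
    (hxy : dI x y ≤ 1) (hx : x ∉ A) (hy : y ∉ A) : s x ↔ s y := by
  constructor
  · intro hs
    by_contra hn
    rcases h x y hxy hs hn with h | h
    · exact hx h
    · exact hy h
  · intro hs
    by_contra hn
    rcases h y x (by rw [dI_comm]; exact hxy) hs hn with h | h
    · exact hy h
    · exact hx h

theorem ball_const {m : ℕ} {A : Set (V m)} {s : V m → Prop} (h : bdry A s) {D : ℕ} {u : V m}
    (hu : deep A D u) : ∀ (n : ℕ) (w : V m), dI u w ≤ n → n ≤ D → (s u ↔ s w) := by
  intro n
  induction n with
  | zero =>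
    intro w hw _
    have : u = w := by
      funext i
      have := dI_le.1 hw i
      omega
    rw [this]
  | succ n ih =>
    intro w hw hn
    let w' : V m := fun i => if w i < u i then w i + 1 else if u i < w i then w i - 1 else w i
    have h1 : dI u w' ≤ n := by
      rw [dI_le] at hw ⊢
      intro i
      have := hw i
      show (u i - (if w i < u i then w i + 1 else if u i < w i then w i - 1 else w i)).natAbs ≤ n
      split_ifs <;> omega
    have h2 : dI w' w ≤ 1 := by
      rw [dI_le]
      intro i
      show ((if w i < u i then w i + 1 else if u i < w i then w i - 1 else w i) - w i).natAbs ≤ 1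
      split_ifs <;> omega
    rw [ih w' h1 (by omega)]
    exact bdry_adj h h2 (hu _ (by omega)) (hu _ (by omega))

/-- the straight case, `u_j ≤ v_j` -/
theorem ns_straight_le (hex : S_HEX) {m k : ℕ} {Δ : ℕ → ℕ} (hk : k + 1 ≤ m) {A : Set (V m)}
    (hA : Col k dI A Δ) {s : V m → Prop} (hs : bdry A s) {u v : V m} (j : Fin m)
    (huv : ∀ i, i ≠ j → u i = v i) (hle : u j ≤ v j) (hu : deep A (Δ 1 + 1) u)
    (hv : deep A (Δ 1 + 1) v) : s u ↔ s v := by
  classical
  obtain ⟨col, hcol⟩ := hA 1
  -- embedding of the colours avoiding `j`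
  obtain ⟨m', rfl⟩ : ∃ m', m = m' + 1 := ⟨m - 1, by omega⟩
  have hk' : k ≤ m' := by omega
  let e : Fin k → Fin (m' + 1) := fun c => j.succAbove (Fin.castLE hk' c)
  have he : ∀ c, e c ≠ j := fun c => Fin.succAbove_ne _ _
  have hinj : Function.Injective e :=
    (Fin.succAbove_right_injective).comp (Fin.castLE_injective hk')
  set D := Δ 1 + 1 with hD
  let p : V (m' + 1) → V (m' + 1) := fun z i => if i = j then u i + z i else u i - D + z i
  let N : Fin (m' + 1) → ℕ := fun i => if i = j then (v j - u j).toNat else 2 * D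
  obtain ⟨i, x, y, hx, hx0, hy0, hcx, hpath⟩ := hex (m' + 1) N (by omega)
    (fun z => if p z ∈ A then e (col (p z)) else j)
  have hy : ∀ i, 0 ≤ y i ∧ y i ≤ (N i : ℤ) := by
    rcases ReflTransGen.cases_tail hpath with h | ⟨c, _, hc⟩
    · rw [h]; exact hx
    · exact hc.2.1
  have hp1 : ∀ a b, dI a b ≤ 1 → dI (p a) (p b) ≤ 1 := by
    intro a b hab
    rw [dI_le] at hab ⊢
    intro i
    have := hab i
    show ((if i = j then u i + a i else u i - D + a i) -
      (if i = j then u i + b i else u i - D + b i)).natAbs ≤ 1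
    split_ifs <;> omega
  by_cases hij : i = j
  · subst hij
    have hall : ∀ z, (if p z ∈ A then e (col (p z)) else i) = i → p z ∉ A := by
      intro z hz hzA
      rw [if_pos hzA] at hz
      exact he _ hz
    have hcon : s (p x) ↔ s (p y) := by
      have : ∀ z, ReflTransGen (fun a b : V (m' + 1) => (∀ i, 0 ≤ a i ∧ a i ≤ (N i : ℤ)) ∧
          (∀ i, 0 ≤ b i ∧ b i ≤ (N i : ℤ)) ∧ dI a b ≤ 1 ∧
          (if p a ∈ A then e (col (p a)) else i) = i ∧
          (if p b ∈ A then e (col (p b)) else i) = i) x z → (s (p x) ↔ s (p z)) := by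
        intro z hz
        induction hz with
        | refl => rfl
        | tail _ hbc ih =>
          rw [ih]
          exact bdry_adj hs (hp1 _ _ hbc.2.2.1) (hall _ hbc.2.2.2.1) (hall _ hbc.2.2.2.2)
      exact this y hpath
    have hux : s u ↔ s (p x) := by
      apply ball_const hs hu D _ _ le_rfl
      rw [dI_le]
      intro l
      have := hx l
      show (u l - (if l = i then u l + x l else u l - D + x l)).natAbs ≤ D
      by_cases hl : l = i
      · subst hl
        rw [if_pos rfl, hx0]
        omega
      · have hN : N l = 2 * D := if_neg hl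
        rw [hN] at this
        rw [if_neg hl]
        omega
    have hvy : s v ↔ s (p y) := by
      apply ball_const hs hv D _ _ le_rfl
      rw [dI_le]
      intro l
      have := hy l
      show (v l - (if l = i then u l + y l else u l - D + y l)).natAbs ≤ D
      by_cases hl : l = i
      · subst hl
        have hN : N l = (v l - u l).toNat := if_pos rfl
        rw [if_pos rfl, hy0, hN]
        omega
      · have hN : N l = 2 * D := if_neg hl
        rw [hN] at this
        rw [if_neg hl, ← huv l hl]
        omega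
    rw [hux, hvy, hcon]
  · exfalso
    have hall : ∀ z, (if p z ∈ A then e (col (p z)) else j) = i → p z ∈ A ∧ e (col (p z)) = i := by
      intro z hz
      by_cases hzA : p z ∈ A
      · rw [if_pos hzA] at hz
        exact ⟨hzA, hz⟩
      · rw [if_neg hzA] at hz
        exact absurd hz.symm hij
    have hlift : ReflTransGen (fun a b => a ∈ A ∧ b ∈ A ∧ dI a b ≤ 1 ∧ col a = col b)
        (p x) (p y) := by
      refine ReflTransGen.lift p ?_ _ _ hpath
      rintro b c ⟨hb, hc, hbc, hcb, hcc⟩
      obtain ⟨h1, h2⟩ := hall b hcb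
      obtain ⟨h3, h4⟩ := hall c hcc
      exact ⟨h1, h3, hp1 _ _ hbc, hinj (h2.trans h4.symm)⟩
    have h1 := hcol _ _ (hall x hcx).1 hlift
    have h2 := dI_le.1 h1 i
    have hN : N i = 2 * D := if_neg hij
    rw [hN] at hy0
    have e1 : p x i = u i - D + x i := if_neg hij
    have e2 : p y i = u i - D + y i := if_neg hij
    rw [e1, e2, hx0, hy0] at h2
    omega

theorem ns_straight (hex : S_HEX) {m k : ℕ} {Δ : ℕ → ℕ} (hk : k + 1 ≤ m) {A : Set (V m)}
    (hA : Col k dI A Δ) {s : V m → Prop} (hs : bdry A s) {u v : V m} (j : Fin m)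
    (huv : ∀ i, i ≠ j → u i = v i) (hu : deep A (Δ 1 + 1) u)
    (hv : deep A (Δ 1 + 1) v) : s u ↔ s v := by
  rcases le_total (u j) (v j) with h | h
  · exact ns_straight_le hex hk hA hs j huv h hu hv
  · exact (ns_straight_le hex hk hA hs j (fun i hi => (huv i hi).symm) h hv hu).symm

theorem ns_aux (hex : S_HEX) (dd : S_DD) (m k : ℕ) (Δ : ℕ → ℕ) (hk : k + 1 ≤ m) (c : ℕ) :
    ∃ D : ℕ, ∀ A : Set (V m), Col k dI A Δ → ∀ s : V m → Prop, bdry A s → ∀ u v : V m,
      (Finset.univ.filter fun i => u i ≠ v i).card ≤ c → deep A D u → deep A D v →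
      (s u ↔ s v) := by
  classical
  induction c with
  | zero =>
    refine ⟨0, ?_⟩
    intro A _ s _ u v hc _ _
    have h0 : (Finset.univ.filter fun i => u i ≠ v i) = ∅ := by
      rw [← Finset.card_eq_zero]
      omega
    have : u = v := by
      funext i
      by_contra h
      have : i ∈ (Finset.univ.filter fun i => u i ≠ v i) :=
        Finset.mem_filter.2 ⟨Finset.mem_univ _, h⟩
      rw [h0] at this
      exact absurd this (Finset.notMem_empty _)
    rw [this]
  | succ c ih =>
    obtain ⟨D, hD⟩ := ih
    obtain ⟨r, hr⟩ := dd m k Δ (max (Δ 1 + 1) D) (by omega)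
    refine ⟨max (Δ 1 + 1) D + r, ?_⟩
    intro A hA s hs u v hc hu hv
    by_cases huv : u = v
    · rw [huv]
    · obtain ⟨j, hj⟩ : ∃ j, u j ≠ v j := by
        by_contra h
        push Not at h
        exact huv (funext h)
      let w : V m := Function.update u j (v j)
      obtain ⟨y, hy1, hy2⟩ := hr A hA w
      let δ : V m := y - w
      have hδ : ∀ i, (δ i).natAbs ≤ r := by
        intro i
        have := dI_le.1 hy1 i
        show (y i - w i).natAbs ≤ r
        omega
      have hshift : ∀ x : V m, dI x (x + δ) ≤ r := by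
        intro x
        rw [dI_le]
        intro i
        have := hδ i
        simp only [Pi.add_apply]
        omega
      have hu' : deep A (max (Δ 1 + 1) D) (u + δ) := deep_shift hu (hshift u)
      have hv' : deep A (max (Δ 1 + 1) D) (v + δ) := deep_shift hv (hshift v)
      have hyδ : y = w + δ := by
        show y = w + (y - w)
        abel
      have hy' : deep A (max (Δ 1 + 1) D) y := hy2
      have s1 : s u ↔ s (u + δ) := ball_const hs hu r _ (hshift u) (by omega)
      have s2 : s v ↔ s (v + δ) := ball_const hs hv r _ (hshift v) (by omega)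
      have s3 : s (u + δ) ↔ s y := by
        apply ns_straight hex hk hA hs j _ (deep_mono hu' (le_max_left _ _))
          (deep_mono hy' (le_max_left _ _))
        intro i hi
        rw [hyδ]
        simp only [Pi.add_apply]
        congr 1
        exact (Function.update_of_ne hi _ _).symm
      have s4 : s y ↔ s (v + δ) := by
        apply hD A hA s hs _ _ _ (deep_mono hy' (le_max_right _ _))
          (deep_mono hv' (le_max_right _ _))
        have hsub : (Finset.univ.filter fun i => y i ≠ (v + δ) i) ⊂
            (Finset.univ.filter fun i => u i ≠ v i) := by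
          rw [Finset.ssubset_iff_of_subset]
          · refine ⟨j, Finset.mem_filter.2 ⟨Finset.mem_univ _, hj⟩, ?_⟩
            intro h
            apply (Finset.mem_filter.1 h).2
            rw [hyδ]
            simp only [Pi.add_apply]
            congr 1
            exact Function.update_self _ _ _
          · intro i hi
            have h1 := (Finset.mem_filter.1 hi).2
            refine Finset.mem_filter.2 ⟨Finset.mem_univ _, ?_⟩
            intro h2
            apply h1
            rw [hyδ]
            simp only [Pi.add_apply]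
            congr 1
            by_cases hij : i = j
            · subst hij
              exact Function.update_self _ _ _
            · exact (Function.update_of_ne hij _ _).trans h2
        have := Finset.card_lt_card hsub
        omega
      rw [s1, s2, s3, s4]

/-- NS (from HEX and DD) -/
theorem mod_NS (hex : S_HEX) (dd : S_DD) : S_NS := by
  classical
  intro m k Δ hk
  obtain ⟨D, hD⟩ := ns_aux hex dd m k Δ hk m
  refine ⟨D, ?_⟩
  intro A hA s hs u v hu hv hsu
  refine (hD A hA s hs u v ?_ hu hv).1 hsu
  calc (Finset.univ.filter fun i => u i ≠ v i).card ≤ (Finset.univ : Finset (Fin m)).card :=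
        Finset.card_le_card (Finset.filter_subset _ _)
    _ = m := by simp

end CQ
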